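import Mathlib

/-!
# Distinct difference configurations in free groups: blueprint (MP_db30a9_co)

Prove `theorem main (h : TaskY) ... : Pool.Agent.Q232.DC.TaskX` in `Pool/Agent/Q232/DC/TaskX.lean`, namespace
`Pool.Agent.Q232.DC.TaskX` (import Pool.Agent.Q232.DC.Stmts).

Lower bound: the words `x z y`, `|x| = |y| = |z| = k`, with `code z = lam * X x * Y y` in `ZMod P`.
Upper bound: centre of the configuration, elements with the same prefix of length `i`, Cauchy-Schwarz.
-/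

set_option autoImplicit false

namespace Pool.Agent.Q232.DC

open FreeGroup

/-- letters: generators and their inverses -/
abbrev Let (n : ℕ) : Type := Fin n × Bool

/-- the elements `g⁻¹ h`, over all ordered pairs of distinct elements of `D`, are pairwise distinct -/
def IsDDC {n : ℕ} (D : Finset (FreeGroup (Fin n))) : Prop :=
  ∀ g ∈ D, ∀ h ∈ D, ∀ g' ∈ D, ∀ h' ∈ D, g ≠ h → g' ≠ h' → g⁻¹ * h = g'⁻¹ * h' → g = g' ∧ h = h'

/-- `D` has diameter at most `d`; `FreeGroup.norm` is the word length -/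
def Diam {n : ℕ} (D : Finset (FreeGroup (Fin n))) (d : ℕ) : Prop :=
  ∀ g ∈ D, ∀ h ∈ D, (g⁻¹ * h).norm ≤ d

/-! ### lower bound -/

/-- cancellation: `(u a)⁻¹ (u b) = a⁻¹ b` is reduced if the first letters of `a` and `b` differ
(`FreeGroup.isReduced_iff_reduce_eq`, `toWord_mk`, `toWord_inv`, `invRev`; `IsReduced` is `List.IsChain`) -/
def TaskDiff : Prop := ∀ (n : ℕ) (u a b : List (Let n)), IsReduced (u ++ a) → IsReduced (u ++ b) →
  a.length = b.length → (a = [] ∨ a.head? ≠ b.head?) →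
  ((mk (u ++ a))⁻¹ * mk (u ++ b)).toWord = invRev a ++ b

/-- longest common prefix (induction on the lists) -/
def TaskSplit : Prop := ∀ (n : ℕ) (g h : List (Let n)), g.length = h.length → g ≠ h →
  ∃ u a b, g = u ++ a ∧ h = u ++ b ∧ a.length = b.length ∧ a ≠ [] ∧ a.head? ≠ b.head?

/-- no rectangles -/
def NoRect {n : ℕ} (S : Set (List (Let n))) : Prop := ∀ u u' a b : List (Let n), u.length = u'.length →
  a.length = b.length → u ++ a ∈ S → u ++ b ∈ S → u' ++ a ∈ S → u' ++ b ∈ S → u = u' ∨ a = b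

/-- `D = S.image mk`. By TaskSplit and TaskDiff `g⁻¹ h` determines `a` and `b` (`|invRev a| = |b|`) and the length of
`u`; `mk` is injective on reduced words (`toWord_mk`, `IsReduced.reduce_eq`); norm = length of `toWord` -/
def TaskRect : Prop := TaskDiff → TaskSplit → ∀ (n r : ℕ) (S : Finset (List (Let n))),
  (∀ w ∈ S, w.length = r ∧ IsReduced w) → NoRect (S : Set (List (Let n))) →
  ∃ D : Finset (FreeGroup (Fin n)), D.card = S.card ∧ IsDDC D ∧ Diam D (2 * r)

/-- additive letter code, starting at the place `s` -/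
def code {n P : ℕ} (c : ℕ → Let n → ZMod P) : ℕ → List (Let n) → ZMod P
  | _, [] => 0
  | s, a :: l => c s a + code c (s + 1) l

/-- short induction -/
def TaskApp : Prop := ∀ (n P : ℕ) (c : ℕ → Let n → ZMod P) (l l' : List (Let n)) (s : ℕ),
  code c s (l ++ l') = code c s l + code c (s + l.length) l'

/-- Cases for the place `i = |u|` of the cut in `x z y`. `i ≤ k`: `u = x₁`, `a = x₂ z y`, `b = x₂' z' y'`; from `u a, u' a ∈ S`
`X (x₁ x₂) = X (x₁' x₂)` so `u = u'`. `i ≥ 2k`: the same for `y`. `k < i < 2k`: `u = x z₁`, `u' = x' z₁'`,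
`a = z₂ y`, `b = z₂' y'`; subtract: `code z₂ - code z₂' = lam X(x) (Y(y) - Y(y')) = lam X(x') (Y(y) - Y(y'))`, so
`x = x'` or `y = y'`; then use the uniqueness of `z` for given `x`, `y`. -/
def TaskNoRect : Prop := TaskApp → ∀ (n k P : ℕ) [Fact P.Prime] (c : ℕ → Let n → ZMod P) (lam : ZMod P)
  (X Y : List (Let n) → ZMod P) (AX AY S : Set (List (Let n))), lam ≠ 0 →
  (∀ x ∈ AX, x.length = k ∧ X x ≠ 0) → (∀ y ∈ AY, y.length = k ∧ Y y ≠ 0) → Set.InjOn X AX → Set.InjOn Y AY →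
  (∀ w ∈ S, ∃ x ∈ AX, ∃ z, ∃ y ∈ AY, z.length = k ∧ w = x ++ z ++ y ∧ code c 0 z = lam * X x * Y y) →
  (∀ x z z' y : List (Let n), x.length = k → z.length = k → z'.length = k → y.length = k →
    x ++ z ++ y ∈ S → x ++ z' ++ y ∈ S → z = z') → NoRect S

/-- Average over all codes `c : Fin k → Let n → ZMod P`: for `z ≠ z'` of length `k` exactly `1/P` of the codes satisfy
`code z = code z'`. So for some `c` there are at most `|Z| + |Z|²/P` pairs with equal code; Cauchy-Schwarz. -/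
def TaskCode : Prop := ∀ (n k P : ℕ) [Fact P.Prime] (Z : Finset (List (Let n))), (∀ z ∈ Z, z.length = k) →
  ∃ c : ℕ → Let n → ZMod P, Z.card * P ≤ (Z.image (code c 0)).card * (P + Z.card)

/-- average over `lam ≠ 0`: for fixed nonzero `X x * Y y`, `lam ↦ lam * X x * Y y` is a bijection of the nonzero elements -/
def TaskDil : Prop := ∀ (P : ℕ) [Fact P.Prime] (α : Type) (AX AY : Finset α) (X Y : α → ZMod P) (I : Finset (ZMod P)),
  (∀ x ∈ AX, X x ≠ 0) → (∀ y ∈ AY, Y y ≠ 0) →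
  ∃ lam : ZMod P, lam ≠ 0 ∧ AX.card * AY.card * (I.card - 1) ≤
    ((AX ×ˢ AY).filter (fun p => lam * X p.1 * Y p.2 ∈ I)).card * (P - 1)

/-- reduced words of length `k + 1` with a given last letter (induction on `k`: `IsReduced` is a chain condition; `2 n - 1`
letters may stand before a given letter) -/
def TaskLast : Prop := ∀ (n k : ℕ) (a : Let n), ∃ A : Finset (List (Let n)), A.card = (2 * n - 1) ^ k ∧
  ∀ w : List (Let n), w ∈ A ↔ (w.length = k + 1 ∧ IsReduced w ∧ w.getLast? = some a)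

/-- reduced words of length `k + 1` with a given first letter -/
def TaskFirst : Prop := ∀ (n k : ℕ) (a : Let n), ∃ A : Finset (List (Let n)), A.card = (2 * n - 1) ^ k ∧
  ∀ w : List (Let n), w ∈ A ↔ (w.length = k + 1 ∧ IsReduced w ∧ w.head? = some a)

/-- all `2 n (2 n - 1)^k` reduced words of length `k + 1` without those with first letter `b` and those with last letter `b` -/
def TaskMid : Prop := TaskLast → TaskFirst → ∀ (n k : ℕ) (b : Let n), 2 ≤ n → ∃ A : Finset (List (Let n)),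
  2 * (2 * n - 1) ^ k ≤ A.card ∧
  ∀ w : List (Let n), w ∈ A ↔ (w.length = k + 1 ∧ IsReduced w ∧ w.head? ≠ some b ∧ w.getLast? ≠ some b)

/-- `x z y` is reduced if `x` ends with `(i, true)`, `y` starts with `(i, true)`, and `z` neither starts nor ends with
`(i, false)` (z nonempty) -/
def TaskJoin : Prop := ∀ (n : ℕ) (i : Fin n) (x z y : List (Let n)), IsReduced x → IsReduced z → IsReduced y →
  x.getLast? = some (i, true) → y.head? = some (i, true) → z ≠ [] → z.head? ≠ some (i, false) →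
  z.getLast? ≠ some (i, false) → IsReduced (x ++ z ++ y)

/-! ### upper bound -/

/-- `1 + ∑_{j ≤ m} 2 n (2 n - 1)^(j-1) ≤ 2 (2 n - 1)^m` -/
def TaskBall : Prop := TaskFirst → ∀ (n m : ℕ), 2 ≤ n → {g : FreeGroup (Fin n) | g.norm ≤ m}.Finite ∧
  {g : FreeGroup (Fin n) | g.norm ≤ m}.ncard ≤ 2 * (2 * n - 1) ^ m

/-- different first letters: no cancellation; the same first letter `s`: `norm (s⁻¹ x) = norm x - 1` -/
def TaskNorm : Prop := ∀ (n : ℕ) (x y : FreeGroup (Fin n)),
  (x.toWord.head? ≠ y.toWord.head? → (x⁻¹ * y).norm = x.norm + y.norm) ∧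
  ∀ s : Let n, x.toWord.head? = some s → ((mk [s])⁻¹ * x).norm + 1 = x.norm

/-- minimise `R = max norm (c⁻¹ x)` over `c`; suppose `2 R > d + 1`; translate so that `c = 1`. All `x` with
`norm x ≥ R - 1` have the same first letter `s` as an `x` with `norm x = R ≥ 1` (TaskNorm), so `c = s` is better -/
def TaskCenter : Prop := TaskNorm → ∀ (n d : ℕ) (D : Finset (FreeGroup (Fin n))), D.Nonempty → Diam D d →
  ∃ c : FreeGroup (Fin n), ∀ x ∈ D, 2 * (c⁻¹ * x).norm ≤ d + 1

/-- for `g = u a`, `h = u b` with `|u| = i`: `g⁻¹ h = a⁻¹ b` has norm at most `2 (R - i)`; these are different elements -/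
def TaskPairs : Prop := TaskBall → TaskFirst → ∀ (n R i : ℕ) (D : Finset (FreeGroup (Fin n))), 2 ≤ n → IsDDC D →
  (∀ g ∈ D, g.norm ≤ R) → i ≤ R →
  ((D ×ˢ D).filter (fun p => p.1 ≠ p.2 ∧ i ≤ p.1.norm ∧ i ≤ p.2.norm ∧
    p.1.toWord.take i = p.2.toWord.take i)).card ≤ 2 * (2 * n - 1) ^ (2 * (R - i))

/-- Cauchy-Schwarz -/
def TaskCS : Prop := ∀ (α β : Type) [DecidableEq α] [DecidableEq β] (A : Finset α) (f : α → β) (B : ℕ),
  (A.image f).card ≤ B →
  A.card ^ 2 ≤ B * (A.card + ((A ×ˢ A).filter (fun p => p.1 ≠ p.2 ∧ f p.1 = f p.2)).card)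

/-- translation by `c` -/
def TaskTransl : Prop := ∀ (n : ℕ) (D : Finset (FreeGroup (Fin n))) (c : FreeGroup (Fin n)), IsDDC D →
  ∃ D' : Finset (FreeGroup (Fin n)), D'.card = D.card ∧ IsDDC D' ∧ ∀ g' ∈ D', ∃ g ∈ D, g' = c⁻¹ * g

/-- assembly: `A = {g ∈ D | i ≤ norm g}`, `i = 2 R / 3` -/
def TaskUp : Prop := TaskBall → TaskFirst → TaskPairs → TaskCS → ∀ (n R : ℕ) (D : Finset (FreeGroup (Fin n))), 2 ≤ n →
  IsDDC D → (∀ g ∈ D, g.norm ≤ R) →
  (D.card : ℝ) ≤ 10 * n * ((2 * n - 1 : ℕ) : ℝ) ^ (2 * (R : ℝ) / 3)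

/-- assembly: `P` prime with `q^k < P ≤ 2 q^k` (`Nat.exists_prime_lt_and_le_two_mul`) -/
def TaskLow : Prop := TaskRect → TaskDiff → TaskSplit → TaskNoRect → TaskApp → TaskCode → TaskDil → TaskLast → TaskFirst →
  TaskMid → TaskJoin → ∀ (n k : ℕ), 2 ≤ n → ∃ D : Finset (FreeGroup (Fin n)), IsDDC D ∧ Diam D (6 * (k + 1)) ∧
    (2 * n - 1) ^ (2 * k) ≤ 8 * D.card

end Pool.Agent.Q232.DC
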