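import Mathlib
import Pool.Agent.Q232.DC.Stmts

/-! MP_db30a9_co: assembly of the theorem from the upper and the lower bound. -/

set_option autoImplicit false

namespace Pool.Agent.Q232.DC.Final

open Pool.Agent.Q232.DC

/-- the sizes of the DDCs of diameter at most `d` -/
def Sizes (n d : ℕ) : Set ℕ :=
  {c | ∃ D : Finset (FreeGroup (Fin n)), IsDDC D ∧ Diam D d ∧ D.card = c}

theorem up
    (hC : ∀ (n d : ℕ) (D : Finset (FreeGroup (Fin n))), D.Nonempty → Diam D d →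
      ∃ c : FreeGroup (Fin n), ∀ x ∈ D, 2 * (c⁻¹ * x).norm ≤ d + 1)
    (hT : TaskTransl)
    (hU : ∀ (n R : ℕ) (D : Finset (FreeGroup (Fin n))), 2 ≤ n → IsDDC D → (∀ g ∈ D, g.norm ≤ R) →
      (D.card : ℝ) ≤ 10 * n * ((2 * n - 1 : ℕ) : ℝ) ^ (2 * (R : ℝ) / 3))
    (n d : ℕ) (hn : 2 ≤ n) (D : Finset (FreeGroup (Fin n))) (h1 : IsDDC D) (h2 : Diam D d) :
    (D.card : ℝ) ≤ 10 * n * ((2 * n - 1 : ℕ) : ℝ) ^ (((d : ℝ) + 1) / 3) := by
  have hq : (1 : ℝ) ≤ ((2 * n - 1 : ℕ) : ℝ) := by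
    have : 1 ≤ 2 * n - 1 := by omega
    exact_mod_cast this
  rcases D.eq_empty_or_nonempty with rfl | hne
  · simp only [Finset.card_empty, Nat.cast_zero]
    positivity
  · obtain ⟨c, hc⟩ := hC n d D hne h2
    obtain ⟨D', hcard, hD', hmem⟩ := hT n D c h1
    have h3 : ∀ g ∈ D', g.norm ≤ (d + 1) / 2 := by
      intro g hg
      obtain ⟨x, hx, rfl⟩ := hmem g hg
      have := hc x hx
      omega
    have h4 := hU n ((d + 1) / 2) D' hn hD' h3
    rw [hcard] at h4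
    refine h4.trans ?_
    have h5 : 2 * (((d + 1) / 2 : ℕ) : ℝ) / 3 ≤ ((d : ℝ) + 1) / 3 := by
      have : 2 * ((d + 1) / 2) ≤ d + 1 := by omega
      have : (2 : ℝ) * (((d + 1) / 2 : ℕ) : ℝ) ≤ (d : ℝ) + 1 := by exact_mod_cast this
      linarith
    exact mul_le_mul_of_nonneg_left (Real.rpow_le_rpow_of_exponent_le hq h5) (by positivity)

theorem final
    (hC : ∀ (n d : ℕ) (D : Finset (FreeGroup (Fin n))), D.Nonempty → Diam D d →
      ∃ c : FreeGroup (Fin n), ∀ x ∈ D, 2 * (c⁻¹ * x).norm ≤ d + 1)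
    (hT : TaskTransl)
    (hU : ∀ (n R : ℕ) (D : Finset (FreeGroup (Fin n))), 2 ≤ n → IsDDC D → (∀ g ∈ D, g.norm ≤ R) →
      (D.card : ℝ) ≤ 10 * n * ((2 * n - 1 : ℕ) : ℝ) ^ (2 * (R : ℝ) / 3))
    (hL : ∀ (n k : ℕ), 2 ≤ n → ∃ D : Finset (FreeGroup (Fin n)), IsDDC D ∧ Diam D (6 * (k + 1)) ∧
      (2 * n - 1) ^ (2 * k) ≤ 8 * D.card)
    (n : ℕ) (hn : 2 ≤ n) :
    ∃ C : ℝ, ∀ d : ℕ, IsGreatest (Sizes n d) (sSup (Sizes n d)) ∧
      |Real.logb (2 * n - 1) (sSup (Sizes n d) : ℕ) - d / 3| ≤ C := by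
  have hq1 : 1 < 2 * n - 1 := by omega
  have hqc : ((2 * n - 1 : ℕ) : ℝ) = 2 * (n : ℝ) - 1 := by
    rw [Nat.cast_sub (by omega)]; push_cast; ring
  set q : ℝ := 2 * (n : ℝ) - 1 with hqdef
  have hq : (1 : ℝ) < q := by
    rw [← hqc]; exact_mod_cast hq1
  have hq0 : (0 : ℝ) < q := by linarith
  have hnR : (2 : ℝ) ≤ n := by exact_mod_cast hn
  have hlog8 : 0 ≤ Real.logb q 8 := Real.logb_nonneg hq (by norm_num)
  have hlog10 : 0 ≤ Real.logb q (10 * n) := Real.logb_nonneg hq (by linarith)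
  refine ⟨Real.logb q (10 * n) + Real.logb q 8 + 4, fun d => ?_⟩
  have hup := up hC hT hU n d hn
  -- singletons
  have hsing : (1 : ℕ) ∈ Sizes n d := by
    refine ⟨{1}, ?_, ?_, by simp⟩
    · intro g hg h hh g' hg' h' hh' hne
      simp only [Finset.mem_singleton] at hg hh
      exact absurd (hg.trans hh.symm) hne
    · intro g hg h hh
      simp only [Finset.mem_singleton] at hg hh
      subst hg; subst hh
      simp
  have hbdd : BddAbove (Sizes n d) := by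
    refine ⟨⌊10 * (n : ℝ) * ((2 * n - 1 : ℕ) : ℝ) ^ (((d : ℝ) + 1) / 3)⌋₊, ?_⟩
    rintro c ⟨D, h1, h2, rfl⟩
    exact Nat.le_floor (hup D h1 h2)
  have hgr : IsGreatest (Sizes n d) (sSup (Sizes n d)) :=
    ⟨Nat.sSup_mem ⟨1, hsing⟩ hbdd, fun c hc => le_csSup hbdd hc⟩
  refine ⟨hgr, ?_⟩
  set M := sSup (Sizes n d) with hM
  have hM1 : 1 ≤ M := hgr.2 hsing
  have hM1R : (1 : ℝ) ≤ M := by exact_mod_cast hM1
  have hM0R : (0 : ℝ) < M := by linarith
  have hupper : Real.logb q M ≤ Real.logb q (10 * n) + ((d : ℝ) + 1) / 3 := by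
    obtain ⟨D, h1, h2, hcard⟩ := hgr.1
    have h3 := hup D h1 h2
    rw [hcard, hqc] at h3
    have h4 : Real.logb q M ≤ Real.logb q (10 * n * q ^ (((d : ℝ) + 1) / 3)) :=
      Real.logb_le_logb_of_le hq hM0R h3
    rw [Real.logb_mul (by positivity) (by positivity), Real.logb_rpow hq0 hq.ne'] at h4
    exact h4
  have hlower : (d : ℝ) / 3 - 11 / 3 - Real.logb q 8 ≤ Real.logb q M := by
    rcases lt_or_ge d 6 with hd | hd
    · have h0 : 0 ≤ Real.logb q M := Real.logb_nonneg hq hM1R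
      have : (d : ℝ) ≤ 5 := by exact_mod_cast (by omega : d ≤ 5)
      linarith
    · obtain ⟨D, h1, h2, h3⟩ := hL n (d / 6 - 1) hn
      have h4 : D.card ∈ Sizes n d := by
        refine ⟨D, h1, fun g hg h hh => (h2 g hg h hh).trans ?_, rfl⟩
        omega
      have h5 : D.card ≤ M := hgr.2 h4
      have h6 : (2 * n - 1) ^ (2 * (d / 6 - 1)) ≤ 8 * M := by omega
      have h7 : q ^ (2 * (d / 6 - 1)) ≤ 8 * (M : ℝ) := by
        rw [← hqc]; exact_mod_cast h6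
      have h8 : Real.logb q (q ^ (2 * (d / 6 - 1))) ≤ Real.logb q (8 * (M : ℝ)) :=
        Real.logb_le_logb_of_le hq (by positivity) h7
      rw [Real.logb_mul (by norm_num) hM0R.ne', ← Real.rpow_natCast, Real.logb_rpow hq0 hq.ne'] at h8
      have h9 : (d : ℝ) ≤ 3 * ((2 * (d / 6 - 1) : ℕ) : ℝ) + 11 := by
        have : d ≤ 3 * (2 * (d / 6 - 1)) + 11 := by omega
        exact_mod_cast this
      linarith
  rw [abs_le]
  constructor <;> linarith

end Pool.Agent.Q232.DC.Final
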