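import Pool.Agent.Q232.DC.Stmts

/-! Proof of `TaskApp` (MP_db30a9_co), helper240. -/

namespace Pool.Agent.Q232.DC.TaskApp

open Pool.Agent.Q232.DC

theorem main : Pool.Agent.Q232.DC.TaskApp := by
  intro n P c l l'
  induction l with
  | nil =>
    intro s
    simp [code]
  | cons a l ih =>
    intro s
    have h : s + 1 + l.length = s + (a :: l).length := by
      rw [List.length_cons]
      omega
    rw [List.cons_append]
    show c s a + code c (s + 1) (l ++ l') = (c s a + code c (s + 1) l) + code c (s + (a :: l).length) l'
    rw [ih (s + 1), h, add_assoc]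

end Pool.Agent.Q232.DC.TaskApp
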