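import Mathlib
import Pool.Agent.Q232.DC.Stmts

set_option autoImplicit false

namespace Pool.Agent.Q232.DC.TaskBall

open FreeGroup Pool.Agent.Q232.DC

theorem num (n m : ℕ) (hn : 2 ≤ n) :
    1 + ∑ k ∈ Finset.range m, 2 * n * (2 * n - 1) ^ k ≤ 2 * (2 * n - 1) ^ m := by
  obtain ⟨q, hq, h2⟩ : ∃ q, 2 * n - 1 = q ∧ 2 * n = q + 1 := ⟨2 * n - 1, rfl, by omega⟩
  have hq3 : 3 ≤ q := by omega
  rw [hq, h2]
  induction m with
  | zero => simp
  | succ m ih =>
    rw [Finset.sum_range_succ, pow_succ]
    have : 3 * q ^ m ≤ q * q ^ m := Nat.mul_le_mul_right _ hq3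
    nlinarith

theorem main : Pool.Agent.Q232.DC.TaskBall := by
  intro hF n m hn
  classical
  choose A hA hAm using fun (k : ℕ) (a : Let n) => hF n k a
  set T : Finset (List (Let n)) :=
    insert [] ((Finset.range m).biUnion fun k => Finset.univ.biUnion fun a => A k a) with hT
  have hsub : ∀ g : FreeGroup (Fin n), g.norm ≤ m → g.toWord ∈ T := by
    intro g hg
    have hl : g.toWord.length ≤ m := hg
    rw [hT, Finset.mem_insert]
    rcases hw : g.toWord with _ | ⟨a, l⟩
    · exact Or.inl rfl
    · right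
      rw [hw] at hl
      simp only [List.length_cons] at hl
      refine Finset.mem_biUnion.2 ⟨l.length, Finset.mem_range.2 (by omega), ?_⟩
      refine Finset.mem_biUnion.2 ⟨a, Finset.mem_univ _, ?_⟩
      rw [hAm]
      refine ⟨by simp, ?_, by simp⟩
      rw [← hw]
      exact FreeGroup.isReduced_toWord
  have hcard : T.card ≤ 2 * (2 * n - 1) ^ m := by
    refine le_trans ?_ (num n m hn)
    rw [hT]
    refine (Finset.card_insert_le _ _).trans ?_
    rw [add_comm]
    refine Nat.add_le_add_left ?_ 1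
    refine Finset.card_biUnion_le.trans ?_
    refine Finset.sum_le_sum ?_
    intro k _
    refine Finset.card_biUnion_le.trans ?_
    simp only [hA, Finset.sum_const, Finset.card_univ, smul_eq_mul]
    have : Fintype.card (Let n) = 2 * n := by
      simp [Let, mul_comm]
    rw [this]
  have hinj : Set.InjOn (fun g : FreeGroup (Fin n) => g.toWord) {g | g.norm ≤ m} :=
    FreeGroup.toWord_injective.injOn
  have hmaps : ∀ g ∈ {g : FreeGroup (Fin n) | g.norm ≤ m}, g.toWord ∈ (T : Set (List (Let n))) :=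
    fun g hg => hsub g hg
  refine ⟨Set.Finite.of_injOn (f := fun g : FreeGroup (Fin n) => g.toWord) hmaps hinj
    T.finite_toSet, ?_⟩
  refine (Set.ncard_le_ncard_of_injOn _ hmaps hinj T.finite_toSet).trans ?_
  rw [Set.ncard_coe_finset]
  exact hcard

end Pool.Agent.Q232.DC.TaskBall
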