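import Pool.Agent.Q232.DC.Stmts

set_option autoImplicit false

namespace Pool.Agent.Q232.DC.TaskCS

open Finset

theorem main : Pool.Agent.Q232.DC.TaskCS := by
  intro α β _ _ A f B hB
  have h1 : A.card = ∑ b ∈ A.image f, (A.filter (fun a => f a = b)).card :=
    Finset.card_eq_sum_card_image f A
  have h2 : (∑ b ∈ A.image f, (A.filter (fun a => f a = b)).card) ^ 2 ≤
      (A.image f).card * ∑ b ∈ A.image f, (A.filter (fun a => f a = b)).card ^ 2 :=
    sq_sum_le_card_mul_sum_sq
  have h3 : ∑ b ∈ A.image f, (A.filter (fun a => f a = b)).card ^ 2 =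
      ((A ×ˢ A).filter (fun p => f p.1 = f p.2)).card := by
    rw [Finset.card_eq_sum_card_fiberwise (f := fun p : α × α => f p.1) (t := A.image f)]
    · refine Finset.sum_congr rfl fun b _ => ?_
      rw [sq, ← Finset.card_product]
      congr 1
      ext ⟨p, q⟩
      simp only [Finset.mem_product, Finset.mem_filter]
      constructor
      · rintro ⟨⟨hp, hpb⟩, hq, hqb⟩
        exact ⟨⟨⟨hp, hq⟩, hpb.trans hqb.symm⟩, hpb⟩
      · rintro ⟨⟨⟨hp, hq⟩, hpq⟩, hpb⟩
        exact ⟨⟨hp, hpb⟩, hq, hpq.symm.trans hpb⟩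
    · intro p hp
      have hp' := (Finset.mem_filter.1 (Finset.mem_coe.1 hp)).1
      exact Finset.mem_coe.2 (Finset.mem_image_of_mem f (Finset.mem_product.1 hp').1)
  have h4 : ((A ×ˢ A).filter (fun p => f p.1 = f p.2)).card ≤
      A.card + ((A ×ˢ A).filter (fun p => p.1 ≠ p.2 ∧ f p.1 = f p.2)).card := by
    have hsub : (A ×ˢ A).filter (fun p => f p.1 = f p.2) ⊆
        A.image (fun a => (a, a)) ∪ (A ×ˢ A).filter (fun p => p.1 ≠ p.2 ∧ f p.1 = f p.2) := by
      rintro ⟨p, q⟩ hp
      rw [Finset.mem_filter, Finset.mem_product] at hp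
      rw [Finset.mem_union]
      by_cases hpq : p = q
      · left
        subst hpq
        exact Finset.mem_image.2 ⟨p, hp.1.1, rfl⟩
      · right
        exact Finset.mem_filter.2 ⟨Finset.mem_product.2 hp.1, hpq, hp.2⟩
    exact (Finset.card_le_card hsub).trans ((Finset.card_union_le _ _).trans
      (Nat.add_le_add_right Finset.card_image_le _))
  calc A.card ^ 2 = (∑ b ∈ A.image f, (A.filter (fun a => f a = b)).card) ^ 2 := by rw [← h1]
    _ ≤ (A.image f).card * ∑ b ∈ A.image f, (A.filter (fun a => f a = b)).card ^ 2 := h2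
    _ = (A.image f).card * ((A ×ˢ A).filter (fun p => f p.1 = f p.2)).card := by rw [h3]
    _ ≤ B * (A.card + ((A ×ˢ A).filter (fun p => p.1 ≠ p.2 ∧ f p.1 = f p.2)).card) :=
        Nat.mul_le_mul hB h4

end Pool.Agent.Q232.DC.TaskCS
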