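import Pool.Agent.Q232.DC.Stmts

set_option autoImplicit false

namespace Pool.Agent.Q232.DC.TaskCenter

open FreeGroup Pool.Agent.Q232.DC

theorem main : Pool.Agent.Q232.DC.TaskCenter := by
  classical
  intro hN n d D hD hd
  have hex : ∃ R : ℕ, ∃ c : FreeGroup (Fin n), ∀ x ∈ D, (c⁻¹ * x).norm ≤ R := by
    refine ⟨D.sup (fun x => (1⁻¹ * x : FreeGroup (Fin n)).norm), 1, fun x hx => ?_⟩
    exact Finset.le_sup (f := fun x => (1⁻¹ * x : FreeGroup (Fin n)).norm) hx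
  obtain ⟨c, hc⟩ := Nat.find_spec hex
  set R := Nat.find hex with hR
  refine ⟨c, fun x hx => ?_⟩
  by_contra hcon
  push Not at hcon
  have hxR := hc x hx
  have hR1 : 1 ≤ R := by omega
  have hR2 : d + 2 ≤ 2 * R := by omega
  -- a point of norm `R`
  have hy : ∃ y ∈ D, (c⁻¹ * y).norm = R := by
    by_contra hno
    push Not at hno
    have hlt : R - 1 < Nat.find hex := by omega
    refine Nat.find_min hex hlt ⟨c, fun z hz => ?_⟩
    have h1 := hc z hz
    have h2 := hno z hz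
    omega
  obtain ⟨y, hyD, hyR⟩ := hy
  obtain ⟨s, hs⟩ : ∃ s : Let n, (c⁻¹ * y).toWord.head? = some s := by
    rcases hw : (c⁻¹ * y).toWord with _ | ⟨s, l⟩
    · exfalso
      have : (c⁻¹ * y).norm = 0 := by
        unfold FreeGroup.norm
        rw [hw]; rfl
      omega
    · exact ⟨s, rfl⟩
  have hlt : R - 1 < Nat.find hex := by omega
  refine Nat.find_min hex hlt ⟨c * mk [s], fun z hz => ?_⟩
  have e : (c * mk [s])⁻¹ * z = (mk [s])⁻¹ * (c⁻¹ * z) := by group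
  rw [e]
  by_cases hz' : (c⁻¹ * z).toWord.head? = some s
  · have h1 := (hN n (c⁻¹ * z) 1).2 s hz'
    have h2 := hc z hz
    omega
  · have h1 := (hN n (c⁻¹ * z) (c⁻¹ * y)).1 (by rw [hs]; exact hz')
    have e2 : (c⁻¹ * z)⁻¹ * (c⁻¹ * y) = z⁻¹ * y := by group
    rw [e2, hyR] at h1
    have h2 := hd z hz y hyD
    have h3 : ((mk [s])⁻¹ * (c⁻¹ * z)).norm ≤ (mk [s])⁻¹.norm + (c⁻¹ * z).norm := FreeGroup.norm_mul_le _ _
    have h4 : ((mk [s] : FreeGroup (Fin n))⁻¹).norm ≤ 1 := by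
      rw [FreeGroup.norm_inv_eq]
      exact FreeGroup.norm_mk_le
    omega

end Pool.Agent.Q232.DC.TaskCenter
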