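import Pool.Agent.Q232.DC.Stmts

set_option autoImplicit false

open Finset

namespace Pool.Agent.Q232.DC.TaskCode

private theorem code_sum {n P : ℕ} (c : ℕ → Let n → ZMod P) (l : List (Let n)) :
    ∀ s : ℕ, code c s l = ∑ i : Fin l.length, c (s + i) (l.get i) := by
  induction l with
  | nil => intro s; simp [code]
  | cons a l ih =>
    intro s
    rw [code, ih (s + 1)]
    simp only [List.length_cons]
    rw [Fin.sum_univ_succ]
    congr 1
    apply Finset.sum_congr rfl
    intro i _
    rw [Fin.val_succ, List.get_cons_succ']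
    congr 1
    ring

private theorem code_add {n P : ℕ} (c c' : ℕ → Let n → ZMod P) (l : List (Let n)) :
    ∀ s : ℕ, code (fun s a => c s a + c' s a) s l = code c s l + code c' s l := by
  induction l with
  | nil => intro s; simp [code]
  | cons a l ih =>
    intro s
    rw [code, code, code, ih (s + 1)]
    ring

/-- the extension by zero -/
def ext {n P : ℕ} (k : ℕ) (f : Fin k → Let n → ZMod P) : ℕ → Let n → ZMod P :=
  fun s a => if h : s < k then f ⟨s, h⟩ a else 0

private theorem count {n k P : ℕ} [Fact P.Prime] (z z' : List (Let n)) (hz : z.length = k) (hz' : z'.length = k)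
    (hne : z ≠ z') :
    P * ((Finset.univ : Finset (Fin k → Let n → ZMod P)).filter
      (fun f => code (ext k f) 0 z = code (ext k f) 0 z')).card ≤ Fintype.card (Fin k → Let n → ZMod P) := by
  classical
  obtain ⟨i, hi, hdiff⟩ : ∃ i : ℕ, ∃ hi : i < k, z.get ⟨i, by omega⟩ ≠ z'.get ⟨i, by omega⟩ := by
    by_contra hcon
    push Not at hcon
    apply hne
    apply List.ext_get (by omega)
    intro j h1 h2
    exact hcon j (by omega)
  have hdiff' : ∀ j : Fin z'.length, j.val = i → z'.get j ≠ z.get ⟨i, by omega⟩ := by
    intro j hj h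
    apply hdiff
    rw [← h]
    congr 1
    exact Fin.ext hj
  let g : ZMod P → (Fin k → Let n → ZMod P) := fun t j a => if j.val = i ∧ a = z.get ⟨i, by omega⟩ then t else 0
  have hg : ∀ (t : ZMod P) (f : Fin k → Let n → ZMod P) (l : List (Let n)),
      code (ext k (f + g t)) 0 l = code (ext k f) 0 l + code (ext k (g t)) 0 l := by
    intro t f l
    rw [← code_add]
    congr 1
    funext s a
    unfold ext
    by_cases h : s < k
    · simp only [h, dif_pos, Pi.add_apply]
    · simp only [h, not_false_eq_true, dif_neg, add_zero]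
  have h1 : ∀ t : ZMod P, code (ext k (g t)) 0 z = t := by
    intro t
    rw [code_sum, Finset.sum_eq_single (⟨i, by omega⟩ : Fin z.length)]
    · simp [ext, g, hi]
    · intro j _ hj
      have : j.val ≠ i := fun h => hj (Fin.ext h)
      simp [ext, g, this]
    · intro h
      exact absurd (Finset.mem_univ _) h
  have h2 : ∀ t : ZMod P, code (ext k (g t)) 0 z' = 0 := by
    intro t
    rw [code_sum]
    apply Finset.sum_eq_zero
    intro j _
    by_cases hj : j.val = i
    · have : z'.get j ≠ z.get ⟨i, by omega⟩ := hdiff' j hj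
      unfold ext
      simp only [g]
      split_ifs with h3 h4
      · exact absurd h4.2 this
      · rfl
      · rfl
    · simp [ext, g, hj]
  have hinj : Function.Injective (fun x : ZMod P × {f : Fin k → Let n → ZMod P //
      f ∈ (Finset.univ : Finset (Fin k → Let n → ZMod P)).filter
      (fun f => code (ext k f) 0 z = code (ext k f) 0 z')} => (x.2 : Fin k → Let n → ZMod P) + g x.1) := by
    rintro ⟨t, f, hf⟩ ⟨t', f', hf'⟩ h
    rw [Finset.mem_filter] at hf hf'
    simp only at h
    have e1 : code (ext k (f + g t)) 0 z - code (ext k (f + g t)) 0 z' = t := by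
      rw [hg, hg, h1, h2, hf.2]; ring
    have e2 : code (ext k (f' + g t')) 0 z - code (ext k (f' + g t')) 0 z' = t' := by
      rw [hg, hg, h1, h2, hf'.2]; ring
    have e3 : t = t' := by rw [← e1, ← e2, h]
    subst e3
    have e4 : f = f' := add_right_cancel h
    subst e4
    rfl
  have := Fintype.card_le_of_injective _ hinj
  rw [Fintype.card_prod, ZMod.card, Fintype.card_coe] at this
  exact this

private theorem cs {α β : Type} [DecidableEq α] [DecidableEq β] (Z : Finset α) (f : α → β) :
    Z.card ^ 2 ≤ (Z.image f).card * ((Z ×ˢ Z).filter (fun p => f p.1 = f p.2)).card := by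
  have h1 : Z.card = ∑ v ∈ Z.image f, (Z.filter (fun z => f z = v)).card :=
    Finset.card_eq_sum_card_image f Z
  have h2 : ((Z ×ˢ Z).filter (fun p => f p.1 = f p.2)).card =
      ∑ v ∈ Z.image f, (Z.filter (fun z => f z = v)).card ^ 2 := by
    rw [Finset.card_eq_sum_card_fiberwise (f := fun p => f p.1) (t := Z.image f)]
    · apply Finset.sum_congr rfl
      intro v _
      rw [sq, ← Finset.card_product]
      congr 1
      ext p
      simp only [Finset.mem_filter, Finset.mem_product]
      constructor
      · rintro ⟨⟨⟨h1, h2⟩, h3⟩, h4⟩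
        exact ⟨⟨h1, h4⟩, h2, h3 ▸ h4⟩
      · rintro ⟨⟨h1, h4⟩, h2, h3⟩
        exact ⟨⟨⟨h1, h2⟩, h4.trans h3.symm⟩, h4⟩
    · intro p hp
      have hp := Finset.mem_filter.1 (Finset.mem_coe.1 hp)
      exact Finset.mem_coe.2 (Finset.mem_image_of_mem f (Finset.mem_product.1 hp.1).1)
  rw [h2]
  calc Z.card ^ 2 = (∑ v ∈ Z.image f, (Z.filter (fun z => f z = v)).card) ^ 2 := by rw [← h1]
    _ ≤ _ := sq_sum_le_card_mul_sum_sq

theorem main : Pool.Agent.Q232.DC.TaskCode := by
  classical
  intro n k P _ Z hZ
  obtain ⟨C, hC⟩ : ∃ C, C = Fintype.card (Fin k → Let n → ZMod P) := ⟨_, rfl⟩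
  have hsum : ∑ f : Fin k → Let n → ZMod P,
      P * ((Z ×ˢ Z).filter (fun p => code (ext k f) 0 p.1 = code (ext k f) 0 p.2)).card ≤
      ∑ _f : Fin k → Let n → ZMod P, Z.card * (P + Z.card) := by
    rw [← Finset.mul_sum, Finset.sum_const, Finset.card_univ, ← hC, smul_eq_mul]
    have e1 : ∑ f : Fin k → Let n → ZMod P,
        ((Z ×ˢ Z).filter (fun p => code (ext k f) 0 p.1 = code (ext k f) 0 p.2)).card =
        ∑ p ∈ Z ×ˢ Z, ((Finset.univ : Finset (Fin k → Let n → ZMod P)).filter
          (fun f => code (ext k f) 0 p.1 = code (ext k f) 0 p.2)).card := by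
      simp only [Finset.card_filter]
      exact Finset.sum_comm
    rw [e1, Finset.mul_sum]
    calc ∑ p ∈ Z ×ˢ Z, P * ((Finset.univ : Finset (Fin k → Let n → ZMod P)).filter
          (fun f => code (ext k f) 0 p.1 = code (ext k f) 0 p.2)).card
        ≤ ∑ p ∈ Z ×ˢ Z, ((if p.1 = p.2 then P * C else 0) + C) := by
          apply Finset.sum_le_sum
          intro p hp
          rw [Finset.mem_product] at hp
          by_cases h : p.1 = p.2
          · rw [if_pos h]
            have : ((Finset.univ : Finset (Fin k → Let n → ZMod P)).filter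
              (fun f => code (ext k f) 0 p.1 = code (ext k f) 0 p.2)).card ≤ C := by
              rw [hC, ← Finset.card_univ]
              exact Finset.card_filter_le _ _
            exact (Nat.mul_le_mul_left P this).trans (Nat.le_add_right _ _)
          · rw [if_neg h, zero_add, hC]
            exact count p.1 p.2 (hZ _ hp.1) (hZ _ hp.2) h
      _ = C * (Z.card * (P + Z.card)) := by
          rw [Finset.sum_add_distrib, Finset.sum_const, Finset.card_product, ← Finset.sum_filter, Finset.sum_const]
          have e2 : ((Z ×ˢ Z).filter (fun p => p.1 = p.2)).card = Z.card := by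
            rw [← Finset.diag_card Z]
            congr 1
            ext p
            simp only [Finset.mem_filter, Finset.mem_product, Finset.mem_diag]
            constructor
            · rintro ⟨⟨h1, _⟩, h3⟩
              exact ⟨h1, h3⟩
            · rintro ⟨h1, h3⟩
              exact ⟨⟨h1, h3 ▸ h1⟩, h3⟩
          rw [e2, smul_eq_mul, smul_eq_mul]
          ring
  obtain ⟨f, _, hf⟩ := Finset.exists_le_of_sum_le (Finset.univ_nonempty) hsum
  refine ⟨ext k f, ?_⟩
  have h := cs Z (code (ext k f) 0)
  rcases Z.card.eq_zero_or_pos with h0 | h0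
  · rw [h0]; simp
  · have h3 : Z.card * (Z.card * P) ≤ Z.card * ((Z.image (code (ext k f) 0)).card * (P + Z.card)) := by
      calc Z.card * (Z.card * P) = P * Z.card ^ 2 := by ring
        _ ≤ P * ((Z.image (code (ext k f) 0)).card *
            ((Z ×ˢ Z).filter (fun p => code (ext k f) 0 p.1 = code (ext k f) 0 p.2)).card) :=
          Nat.mul_le_mul_left _ h
        _ = (Z.image (code (ext k f) 0)).card *
            (P * ((Z ×ˢ Z).filter (fun p => code (ext k f) 0 p.1 = code (ext k f) 0 p.2)).card) := by ring
        _ ≤ (Z.image (code (ext k f) 0)).card * (Z.card * (P + Z.card)) := Nat.mul_le_mul_left _ hf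
        _ = _ := by ring
    exact Nat.le_of_mul_le_mul_left h3 h0

end Pool.Agent.Q232.DC.TaskCode
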