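import Mathlib
import Pool.Agent.Q232.DC.Stmts

set_option autoImplicit false

namespace Pool.Agent.Q232.DC.TaskDiff

open FreeGroup

theorem inv_red {n : ℕ} {a : List (Let n)} (h : IsReduced a) : IsReduced (invRev a) := by
  rw [isReduced_iff_not_step]
  intro L hL
  have := Red.Step.invRev hL
  rw [invRev_invRev] at this
  exact h.not_step this

theorem main : Pool.Agent.Q232.DC.TaskDiff := by
  intro n u a b ha hb hl hab
  have ha' : IsReduced a := (List.isChain_append.1 ha).2.1
  have hb' : IsReduced b := (List.isChain_append.1 hb).2.1
  have hr : IsReduced (invRev a ++ b) := by
    rcases hab with rfl | hab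
    · simpa using hb'
    · unfold FreeGroup.IsReduced
      rw [List.isChain_append]
      refine ⟨inv_red ha', hb', ?_⟩
      intro x hx y hy h1
      cases a with
      | nil => simp at hx
      | cons a0 a' =>
        cases b with
        | nil => simp at hy
        | cons b0 b' =>
          simp only [List.head?_cons, Option.mem_def, Option.some.injEq] at hy
          subst hy
          rw [invRev_cons] at hx
          simp only [invRev, List.map_cons, List.map_nil, List.reverse_cons, List.reverse_nil, List.nil_append,
            List.getLast?_append, List.getLast?_singleton, Option.some_or, Option.mem_def,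
            Option.some.injEq] at hx
          subst hx
          simp only [List.head?_cons, ne_eq, Option.some.injEq] at hab
          by_contra hne
          apply hab
          apply Prod.ext
          · exact h1
          · revert hne
            cases a0.2 <;> cases b0.2 <;> simp
  have e : (mk (u ++ a))⁻¹ * mk (u ++ b) = mk (invRev a ++ b) := by
    rw [← mul_mk, ← mul_mk, ← mul_mk, ← inv_mk]; group
  rw [e, toWord_mk, hr.reduce_eq]

end Pool.Agent.Q232.DC.TaskDiff
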