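import Pool.Agent.Q232.DC.Stmts

set_option autoImplicit false

namespace Pool.Agent.Q232.DC.TaskDil

open Finset

theorem aux (P : ℕ) [Fact P.Prime] (I : Finset (ZMod P)) {c : ZMod P} (hc : c ≠ 0) :
    I.card - 1 ≤ (((univ : Finset (ZMod P)).erase 0).filter fun l => l * c ∈ I).card := by
  refine (Finset.pred_card_le_card_erase (s := I) (a := 0)).trans ?_
  refine Finset.card_le_card_of_injOn (fun i => i * c⁻¹) ?_ ?_
  · intro i hi
    have hi' := Finset.mem_erase.1 (Finset.mem_coe.1 hi)
    refine Finset.mem_coe.2 (Finset.mem_filter.2 ⟨Finset.mem_erase.2 ⟨?_, Finset.mem_univ _⟩, ?_⟩)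
    · exact mul_ne_zero hi'.1 (inv_ne_zero hc)
    · simp only
      rw [mul_assoc, inv_mul_cancel₀ hc, mul_one]
      exact hi'.2
  · intro i _ j _ hij
    exact mul_right_cancel₀ (inv_ne_zero hc) hij

theorem main : Pool.Agent.Q232.DC.TaskDil := by
  intro P _ α AX AY X Y I hX hY
  classical
  have hP : 2 ≤ P := (Fact.out : P.Prime).two_le
  by_contra hcon
  push Not at hcon
  have hN : ((univ : Finset (ZMod P)).erase 0).card = P - 1 := by
    rw [Finset.card_erase_of_mem (Finset.mem_univ _), Finset.card_univ, ZMod.card]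
  have hne : ((univ : Finset (ZMod P)).erase 0).Nonempty := by
    rw [← Finset.card_pos, hN]; omega
  have h1 : ∑ l ∈ (univ : Finset (ZMod P)).erase 0,
      ((AX ×ˢ AY).filter (fun p => l * X p.1 * Y p.2 ∈ I)).card * (P - 1) <
      ∑ l ∈ (univ : Finset (ZMod P)).erase 0, AX.card * AY.card * (I.card - 1) :=
    Finset.sum_lt_sum_of_nonempty hne fun l hl => hcon l (Finset.ne_of_mem_erase hl)
  rw [Finset.sum_const, hN, smul_eq_mul, ← Finset.sum_mul] at h1
  have h2 : AX.card * AY.card * (I.card - 1) ≤ ∑ l ∈ (univ : Finset (ZMod P)).erase 0,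
      ((AX ×ˢ AY).filter (fun p => l * X p.1 * Y p.2 ∈ I)).card := by
    have e : ∑ l ∈ (univ : Finset (ZMod P)).erase 0,
        ((AX ×ˢ AY).filter (fun p => l * X p.1 * Y p.2 ∈ I)).card =
        ∑ p ∈ AX ×ˢ AY, (((univ : Finset (ZMod P)).erase 0).filter
          fun l => l * (X p.1 * Y p.2) ∈ I).card := by
      simp only [Finset.card_filter, ← mul_assoc]
      exact Finset.sum_comm
    rw [e, ← Finset.card_product, ← smul_eq_mul, ← Finset.sum_const]
    refine Finset.sum_le_sum fun p hp => ?_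
    rw [Finset.mem_product] at hp
    exact aux P I (mul_ne_zero (hX _ hp.1) (hY _ hp.2))
  have h3 := Nat.mul_le_mul_right (P - 1) h2
  have h4 := lt_of_le_of_lt h3 h1
  rw [mul_comm (P - 1)] at h4
  exact lt_irrefl _ h4

end Pool.Agent.Q232.DC.TaskDil
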