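import Pool.Agent.Q232.DC.Stmts

set_option autoImplicit false

namespace Pool.Agent.Q232.DC.TaskFirst

open FreeGroup Pool.Agent.Q232.DC

theorem main : Pool.Agent.Q232.DC.TaskFirst := by
  classical
  intro n k
  induction k with
  | zero =>
    intro a
    refine ⟨{[a]}, by simp, fun w => ?_⟩
    rw [Finset.mem_singleton]
    constructor
    · rintro rfl
      refine ⟨rfl, ?_, rfl⟩
      exact List.isChain_singleton a
    · rintro ⟨h1, _, h3⟩
      match w, h1, h3 with
      | [b], _, h3 => simpa using h3
  | succ k ih =>
    intro a
    choose A hA1 hA2 using ih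
    let N : Finset (Let n) := Finset.univ.filter fun b => a.1 = b.1 → a.2 = b.2
    have hN : N.card = 2 * n - 1 := by
      have h1 : N = Finset.univ.erase (a.1, !a.2) := by
        ext b
        simp only [N, Finset.mem_filter, Finset.mem_univ, true_and, Finset.mem_erase, and_true, ne_eq]
        obtain ⟨b1, b2⟩ := b
        obtain ⟨a1, a2⟩ := a
        constructor
        · intro h h2
          have h3 : b1 = a1 := congrArg Prod.fst h2
          have h4 : b2 = !a2 := congrArg Prod.snd h2
          have h5 : a2 = b2 := h h3.symm
          rw [h4] at h5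
          cases a2 <;> simp at h5
        · intro h h3
          by_contra h5
          apply h
          refine Prod.ext h3.symm ?_
          change b2 = !a2
          change ¬ a2 = b2 at h5
          cases a2 <;> cases b2 <;> simp_all
      rw [h1, Finset.card_erase_of_mem (Finset.mem_univ _), Finset.card_univ, Fintype.card_prod,
        Fintype.card_fin, Fintype.card_bool, mul_comm]
    refine ⟨N.biUnion fun b => (A b).image (List.cons a), ?_, ?_⟩
    · rw [Finset.card_biUnion]
      · have h1 : ∀ b ∈ N, ((A b).image (List.cons a)).card = (2 * n - 1) ^ k := by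
          intro b _
          rw [Finset.card_image_of_injective _ (fun u v h => (List.cons.inj h).2), hA1]
        rw [Finset.sum_congr rfl h1, Finset.sum_const, hN, smul_eq_mul, pow_succ, mul_comm]
      · intro b _ b' _ hbb
        change Disjoint ((A b).image (List.cons a)) ((A b').image (List.cons a))
        rw [Finset.disjoint_left]
        intro w hw hw'
        obtain ⟨u, hu, rfl⟩ := Finset.mem_image.1 hw
        obtain ⟨u', hu', h⟩ := Finset.mem_image.1 hw'
        have h0 : u' = u := (List.cons.inj h).2
        subst h0
        have h1 := ((hA2 b u').1 hu).2.2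
        have h2 := ((hA2 b' u').1 hu').2.2
        rw [h1] at h2
        exact hbb (Option.some.inj h2)
    · intro w
      rw [Finset.mem_biUnion]
      constructor
      · rintro ⟨b, hb, hw⟩
        obtain ⟨u, hu, rfl⟩ := Finset.mem_image.1 hw
        obtain ⟨h1, h2, h3⟩ := (hA2 b u).1 hu
        refine ⟨by simp [h1], ?_, rfl⟩
        cases u with
        | nil => simp at h1
        | cons c u =>
          rw [List.head?_cons] at h3
          obtain rfl := Option.some.inj h3
          exact List.isChain_cons_cons.2 ⟨(Finset.mem_filter.1 hb).2, h2⟩
      · rintro ⟨h1, h2, h3⟩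
        match w, h1, h2, h3 with
        | c :: b :: u, h1, h2, h3 =>
          rw [List.head?_cons] at h3
          obtain rfl := Option.some.inj h3
          obtain ⟨h4, h5⟩ := List.isChain_cons_cons.1 h2
          exact ⟨b, Finset.mem_filter.2 ⟨Finset.mem_univ _, h4⟩,
            Finset.mem_image.2 ⟨b :: u, (hA2 b _).2 ⟨by simpa using h1, h5, rfl⟩, rfl⟩⟩

end Pool.Agent.Q232.DC.TaskFirst
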