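import Pool.Agent.Q232.DC.Stmts

set_option autoImplicit false

namespace Pool.Agent.Q232.DC.TaskJoin

open FreeGroup Pool.Agent.Q232.DC

theorem main : Pool.Agent.Q232.DC.TaskJoin := by
  intro n i x z y hx hz hy hlx hfy hz0 hfz hlz
  unfold FreeGroup.IsReduced at *
  rw [List.isChain_append]
  refine ⟨?_, hy, ?_⟩
  · rw [List.isChain_append]
    refine ⟨hx, hz, ?_⟩
    intro a ha b hb hab
    rw [hlx] at ha
    have ha' : a = (i, true) := (Option.mem_some_iff.1 ha).symm
    subst ha'
    by_contra hne
    apply hfz
    rw [Option.mem_def.1 hb]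
    congr 1
    ext
    · exact congrArg Fin.val hab.symm
    · cases h : b.2
      · rfl
      · exact absurd h.symm hne
  · intro a ha b hb hab
    rw [hfy] at hb
    have hb' : b = (i, true) := (Option.mem_some_iff.1 hb).symm
    subst hb'
    rw [List.getLast?_append_of_ne_nil _ hz0] at ha
    by_contra hne
    apply hlz
    rw [Option.mem_def.1 ha]
    congr 1
    ext
    · exact congrArg Fin.val hab
    · cases h : a.2
      · rfl
      · exact absurd h hne

end Pool.Agent.Q232.DC.TaskJoin
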