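import Pool.Agent.Q232.DC.Stmts

set_option autoImplicit false

namespace Pool.Agent.Q232.DC.TaskLast

open FreeGroup

theorem concat_red {n : ℕ} (v : List (Let n)) (a : Let n) :
    IsReduced (v ++ [a]) ↔ IsReduced v ∧ ∀ b, v.getLast? = some b → b ≠ (a.1, !a.2) := by
  unfold FreeGroup.IsReduced
  rw [List.isChain_append]
  constructor
  · rintro ⟨h1, _, h3⟩
    refine ⟨h1, ?_⟩
    intro b hb e
    have := h3 b (by rw [hb]; simp) a (by simp)
    rw [e] at this
    have h4 := this rfl
    simp at h4
  · rintro ⟨h1, h2⟩
    refine ⟨h1, by simp, ?_⟩
    intro b hb c hc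
    have hca : c = a := by simpa using hc.symm
    rw [hca]
    intro e
    have hb' : v.getLast? = some b := by simpa using hb
    have h3 := h2 b hb'
    by_contra h4
    apply h3
    ext1
    · exact e
    · show b.2 = !a.2
      cases hb2 : b.2 <;> cases ha2 : a.2 <;> simp_all

theorem main : Pool.Agent.Q232.DC.TaskLast := by
  classical
  intro n k
  induction k with
  | zero =>
    intro a
    refine ⟨{[a]}, by simp, ?_⟩
    intro w
    rw [Finset.mem_singleton]
    constructor
    · rintro rfl
      exact ⟨rfl, by simp [FreeGroup.IsReduced], rfl⟩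
    · rintro ⟨h1, _, h3⟩
      rw [zero_add, List.length_eq_one_iff] at h1
      obtain ⟨x, rfl⟩ := h1
      simpa using h3
  | succ k ih =>
    intro a
    choose A hcard hmem using ih
    refine ⟨(Finset.univ.filter (fun b : Let n => b ≠ (a.1, !a.2))).biUnion
      (fun b => (A b).image (fun v => v ++ [a])), ?_, ?_⟩
    · rw [Finset.card_biUnion]
      · have h1 : ∀ b ∈ Finset.univ.filter (fun b : Let n => b ≠ (a.1, !a.2)),
            ((A b).image (fun v => v ++ [a])).card = (2 * n - 1) ^ k := by
          intro b _
          rw [Finset.card_image_of_injective _ (List.append_left_injective [a]), hcard]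
        rw [Finset.sum_congr rfl h1, Finset.sum_const, smul_eq_mul]
        have h2 : (Finset.univ.filter (fun b : Let n => b ≠ (a.1, !a.2))).card = 2 * n - 1 := by
          rw [Finset.filter_ne', Finset.card_erase_of_mem (Finset.mem_univ _), Finset.card_univ]
          simp [mul_comm]
        rw [h2, pow_succ, mul_comm]
      · intro b _ c _ hbc
        rw [Function.onFun, Finset.disjoint_left]
        intro w hw hw'
        rw [Finset.mem_image] at hw hw'
        obtain ⟨v, hv, rfl⟩ := hw
        obtain ⟨v', hv', e⟩ := hw'
        have e' : v' = v := List.append_left_injective [a] e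
        rw [e'] at hv'
        have h3 := ((hmem b v).1 hv).2.2
        have h4 := ((hmem c v).1 hv').2.2
        rw [h3] at h4
        exact hbc (Option.some_injective _ h4)
    · intro w
      simp only [Finset.mem_biUnion, Finset.mem_filter, Finset.mem_univ, true_and,
        Finset.mem_image]
      constructor
      · rintro ⟨b, hb, v, hv, rfl⟩
        obtain ⟨h1, h2, h3⟩ := (hmem b v).1 hv
        refine ⟨by simp [h1], ?_, by simp⟩
        rw [concat_red]
        refine ⟨h2, ?_⟩
        intro c hc
        rw [h3] at hc
        rw [← Option.some_injective _ hc]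
        exact hb
      · rintro ⟨h1, h2, h3⟩
        rcases List.eq_nil_or_concat' w with h | ⟨v, c, rfl⟩
        · rw [h] at h1; simp at h1
        · have hca : c = a := by simpa using h3
          rw [hca] at h2 ⊢
          obtain ⟨h4, h5⟩ := (concat_red v a).1 h2
          have hl : v.length = k + 1 := by simpa using h1
          have hne : v ≠ [] := by
            intro h; rw [h] at hl; simp at hl
          have hb : v.getLast? = some (v.getLast hne) := List.getLast?_eq_some_getLast hne
          exact ⟨v.getLast hne, h5 _ hb, v, (hmem _ v).2 ⟨hl, h4, hb⟩, rfl⟩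

end Pool.Agent.Q232.DC.TaskLast
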