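import Pool.Agent.Q232.DC.Stmts

set_option autoImplicit false

namespace Pool.Agent.Q232.DC.TaskLow

open FreeGroup

/-- an injective labelling by nonzero elements -/
lemma label {α : Type} (A : Finset α) (P : ℕ) (h : A.card < P) :
    ∃ X : α → ZMod P, (∀ x ∈ A, X x ≠ 0) ∧ Set.InjOn X A := by
  classical
  refine ⟨fun x => if hx : x ∈ A then (((A.equivFin ⟨x, hx⟩ : Fin A.card) : ℕ) + 1 : ℕ) else 0, ?_, ?_⟩
  · intro x hx
    simp only [hx, dite_true]
    intro h0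
    rw [ZMod.natCast_eq_zero_iff] at h0
    have := Nat.le_of_dvd (Nat.succ_pos _) h0
    have h2 := (A.equivFin ⟨x, hx⟩).2
    omega
  · intro x hx y hy hxy
    have hx' : x ∈ A := hx
    have hy' : y ∈ A := hy
    simp only [hx', hy', dite_true] at hxy
    rw [ZMod.natCast_eq_natCast_iff'] at hxy
    have h2 := (A.equivFin ⟨x, hx'⟩).2
    have h3 := (A.equivFin ⟨y, hy'⟩).2
    rw [Nat.mod_eq_of_lt (by omega), Nat.mod_eq_of_lt (by omega)] at hxy
    have h4 : A.equivFin ⟨x, hx'⟩ = A.equivFin ⟨y, hy'⟩ := Fin.ext (by omega)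
    have := A.equivFin.injective h4
    simpa using this

theorem main : Pool.Agent.Q232.DC.TaskLow := by
  classical
  intro hRect hDiff hSplit hNoRect hApp hCode hDil hLast hFirst hMid hJoin n k hn
  rcases Nat.eq_zero_or_pos k with hk | hk
  · subst hk
    refine ⟨{1}, ?_, ?_, by simp⟩
    · intro g hg h hh g' hg' h' hh' hne
      rw [Finset.mem_singleton] at hg hh
      exact absurd (hg.trans hh.symm) hne
    · intro g hg h hh
      rw [Finset.mem_singleton] at hg hh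
      subst hg; subst hh
      simp
  have i0 : Fin n := ⟨0, by omega⟩
  obtain ⟨AX, hAXc, hAX⟩ := hLast n k (i0, true)
  obtain ⟨AY, hAYc, hAY⟩ := hFirst n k (i0, true)
  obtain ⟨Z, hZc, hZ⟩ := hMid hLast hFirst n k (i0, false) hn
  obtain ⟨a, ha⟩ : ∃ a, a = (2 * n - 1) ^ k := ⟨_, rfl⟩
  rw [← ha] at hAXc hAYc hZc
  have ha3 : 3 ≤ a := by
    rw [ha]
    calc 3 = 3 ^ 1 := by norm_num
      _ ≤ 3 ^ k := Nat.pow_le_pow_right (by norm_num) hk
      _ ≤ (2 * n - 1) ^ k := Nat.pow_le_pow_left (by omega) k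
  obtain ⟨P, hP, hP1, hP2⟩ := Nat.exists_prime_lt_and_le_two_mul a (by omega)
  have : Fact P.Prime := ⟨hP⟩
  obtain ⟨X, hX0, hXi⟩ := label AX P (by omega)
  obtain ⟨Y, hY0, hYi⟩ := label AY P (by omega)
  obtain ⟨c, hc⟩ := hCode n (k + 1) P Z (fun z hz => ((hZ z).1 hz).1)
  obtain ⟨I, hI⟩ : ∃ I, I = Z.image (code c 0) := ⟨_, rfl⟩
  rw [← hI] at hc
  obtain ⟨lam, hlam, hdil⟩ := hDil P (List (Let n)) AX AY X Y I hX0 hY0
  obtain ⟨T, hT⟩ : ∃ T, T = (AX ×ˢ AY).filter (fun p => lam * X p.1 * Y p.2 ∈ I) := ⟨_, rfl⟩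
  rw [← hT] at hdil
  have hch : ∀ p : List (Let n) × List (Let n), ∃ z, p ∈ T → (z ∈ Z ∧ code c 0 z = lam * X p.1 * Y p.2) := by
    intro p
    by_cases hp : p ∈ T
    · have h1 := hp
      rw [hT, Finset.mem_filter, hI, Finset.mem_image] at h1
      obtain ⟨z, hz, hz2⟩ := h1.2
      exact ⟨z, fun _ => ⟨hz, hz2⟩⟩
    · exact ⟨[], fun h => absurd h hp⟩
  choose g hg using hch
  have hTX : ∀ p ∈ T, p.1 ∈ AX ∧ p.2 ∈ AY := by
    intro p hp
    rw [hT, Finset.mem_filter, Finset.mem_product] at hp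
    exact hp.1
  have hlx : ∀ p ∈ T, p.1.length = k + 1 := fun p hp => ((hAX _).1 (hTX p hp).1).1
  have hly : ∀ p ∈ T, p.2.length = k + 1 := fun p hp => ((hAY _).1 (hTX p hp).2).1
  have hlz : ∀ p ∈ T, (g p).length = k + 1 := fun p hp => ((hZ _).1 (hg p hp).1).1
  -- words are determined by their parts
  have hparts : ∀ x z y x' z' y' : List (Let n), x.length = k + 1 → x'.length = k + 1 →
      y.length = k + 1 → y'.length = k + 1 → x ++ z ++ y = x' ++ z' ++ y' → x = x' ∧ z = z' ∧ y = y' := by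
    intro x z y x' z' y' h1 h2 h3 h4 h
    have h5 := List.append_inj' h (by rw [h3, h4])
    have h6 := List.append_inj h5.1 (by rw [h1, h2])
    exact ⟨h6.1, h6.2, h5.2⟩
  obtain ⟨S, hS⟩ : ∃ S, S = T.image (fun p => p.1 ++ g p ++ p.2) := ⟨_, rfl⟩
  have hScard : S.card = T.card := by
    rw [hS]
    apply Finset.card_image_of_injOn
    intro p hp q hq hpq
    obtain ⟨h1, -, h3⟩ := hparts _ _ _ _ _ _ (hlx p hp) (hlx q hq) (hly p hp) (hly q hq) hpq
    exact Prod.ext h1 h3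
  have hSmem : ∀ w ∈ S, ∃ p ∈ T, w = p.1 ++ g p ++ p.2 := by
    intro w hw
    rw [hS, Finset.mem_image] at hw
    obtain ⟨p, hp, rfl⟩ := hw
    exact ⟨p, hp, rfl⟩
  have hNR : NoRect (S : Set (List (Let n))) := by
    refine hNoRect hApp n (k + 1) P c lam X Y AX AY S hlam (fun x hx => ⟨((hAX _).1 hx).1, hX0 x hx⟩)
      (fun y hy => ⟨((hAY _).1 hy).1, hY0 y hy⟩) hXi hYi ?_ ?_
    · intro w hw
      obtain ⟨p, hp, rfl⟩ := hSmem w hw
      exact ⟨p.1, (hTX p hp).1, g p, p.2, (hTX p hp).2, hlz p hp, rfl, (hg p hp).2⟩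
    · intro x z z' y h1 h2 h3 h4 h5 h6
      obtain ⟨p, hp, e1⟩ := hSmem _ h5
      obtain ⟨q, hq, e2⟩ := hSmem _ h6
      obtain ⟨a1, a2, a3⟩ := hparts _ _ _ _ _ _ h1 (hlx p hp) h4 (hly p hp) e1
      obtain ⟨b1, b2, b3⟩ := hparts _ _ _ _ _ _ h1 (hlx q hq) h4 (hly q hq) e2
      have : p = q := Prod.ext (a1.symm.trans b1) (a3.symm.trans b3)
      rw [a2, b2, this]
  obtain ⟨D, hD1, hD2, hD3⟩ := hRect hDiff hSplit n (3 * (k + 1)) S (by
    intro w hw
    obtain ⟨p, hp, rfl⟩ := hSmem w hw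
    refine ⟨?_, ?_⟩
    · rw [List.length_append, List.length_append, hlx p hp, hly p hp, hlz p hp]
      ring
    · have x1 := (hAX _).1 (hTX p hp).1
      have y1 := (hAY _).1 (hTX p hp).2
      have z1 := (hZ _).1 (hg p hp).1
      refine hJoin n i0 p.1 (g p) p.2 x1.2.1 z1.2.1 y1.2.1 x1.2.2 y1.2.2 ?_ z1.2.2.1 z1.2.2.2
      intro h0
      have := hlz p hp
      rw [h0] at this
      simp at this) hNR
  refine ⟨D, hD2, ?_, ?_⟩
  · have : 2 * (3 * (k + 1)) = 6 * (k + 1) := by ring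
    rw [← this]; exact hD3
  · rw [hD1, hScard]
    have e1 : (2 * n - 1) ^ (2 * k) = a * a := by
      rw [ha, ← pow_add]
      congr 1
      ring
    rw [e1]
    rw [hAXc, hAYc] at hdil
    have hZpos : 0 < Z.card := by omega
    have hZP : P ≤ Z.card := by omega
    have h2I : P ≤ 2 * I.card := by
      have h1 : Z.card * P ≤ Z.card * (2 * I.card) := by
        calc Z.card * P ≤ I.card * (P + Z.card) := hc
          _ ≤ I.card * (Z.card + Z.card) := Nat.mul_le_mul_left _ (by omega)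
          _ = Z.card * (2 * I.card) := by ring
      exact Nat.le_of_mul_le_mul_left h1 hZpos
    have hP4 : 4 ≤ P := by omega
    obtain ⟨m, hm⟩ : ∃ m, P = m + 1 := ⟨P - 1, by omega⟩
    have h3 : m ≤ 8 * (I.card - 1) := by omega
    have h4 : (a * a) * m ≤ (8 * T.card) * m := by
      calc (a * a) * m ≤ (a * a) * (8 * (I.card - 1)) := Nat.mul_le_mul_left _ h3
        _ = 8 * (a * a * (I.card - 1)) := by ring
        _ ≤ 8 * (T.card * (P - 1)) := Nat.mul_le_mul_left _ hdil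
        _ = (8 * T.card) * m := by rw [hm]; simp; ring
    exact Nat.le_of_mul_le_mul_right h4 (by omega)

end Pool.Agent.Q232.DC.TaskLow
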