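import Pool.Agent.Q232.DC.Stmts

/-! `TaskMid` (MP_db30a9_co): reduced words whose first and last letters are not `b`. -/

set_option autoImplicit false

namespace Pool.Agent.Q232.DC.TaskMidPf

open FreeGroup Pool.Agent.Q232.DC

theorem main' : Pool.Agent.Q232.DC.TaskMid := by
  classical
  intro hLast hFirst n k b hn
  choose F hF1 hF2 using fun a : Let n => hFirst n k a
  obtain ⟨La, hL1, hL2⟩ := hLast n k b
  have hdisj : Set.PairwiseDisjoint (↑(Finset.univ : Finset (Let n))) F := by
    intro a _ a' _ haa'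
    change Disjoint (F a) (F a')
    rw [Finset.disjoint_left]
    intro w hw hw'
    rw [hF2] at hw hw'
    have h1 := hw.2.2.symm.trans hw'.2.2
    exact haa' (Option.some.inj h1)
  have hall : ((Finset.univ : Finset (Let n)).biUnion F).card = 2 * n * (2 * n - 1) ^ k := by
    rw [Finset.card_biUnion hdisj, Finset.sum_congr rfl (fun a _ => hF1 a), Finset.sum_const,
      Finset.card_univ, smul_eq_mul]
    simp only [Let, Fintype.card_prod, Fintype.card_fin, Fintype.card_bool]
    rw [mul_comm n 2]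
  refine ⟨((Finset.univ : Finset (Let n)).biUnion F) \ (F b ∪ La), ?_, ?_⟩
  · have h1 := Finset.le_card_sdiff (F b ∪ La) ((Finset.univ : Finset (Let n)).biUnion F)
    have h2 := Finset.card_union_le (F b) La
    rw [hF1, hL1] at h2
    rw [hall] at h1
    have h3 : 2 * (2 * n - 1) ^ k + 2 * (2 * n - 1) ^ k ≤ 2 * n * (2 * n - 1) ^ k := by
      rw [← add_mul]
      exact Nat.mul_le_mul_right _ (by omega)
    omega
  · intro w
    simp only [Finset.mem_sdiff, Finset.mem_biUnion, Finset.mem_univ, true_and, Finset.mem_union,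
      hF2, hL2, not_or]
    constructor
    · rintro ⟨⟨a, h1, h2, h3⟩, h4, h5⟩
      exact ⟨h1, h2, fun h => h4 ⟨h1, h2, h⟩, fun h => h5 ⟨h1, h2, h⟩⟩
    · rintro ⟨h1, h2, h3, h4⟩
      refine ⟨?_, fun h => h3 h.2.2, fun h => h4 h.2.2⟩
      rcases w with _ | ⟨a, w⟩
      · simp at h1
      · exact ⟨a, h1, h2, rfl⟩

end Pool.Agent.Q232.DC.TaskMidPf

theorem Pool.Agent.Q232.DC.TaskMid.main : Pool.Agent.Q232.DC.TaskMid :=
  Pool.Agent.Q232.DC.TaskMidPf.main'
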