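import Pool.Agent.Q232.DC.Stmts

set_option autoImplicit false

namespace Pool.Agent.Q232.DC.TaskNoRect

open FreeGroup Pool.Agent.Q232.DC

theorem main : Pool.Agent.Q232.DC.TaskNoRect := by
  intro hApp n k P _ c lam X Y AX AY S hlam hAX hAY hX hY hS hz u u' a b huu hab h1 h2 h3 h4
  -- normal form of the members of `S`
  have H : ∀ w ∈ S, w.length = 3 * k ∧ w.take k ∈ AX ∧ w.drop (2 * k) ∈ AY ∧
      code c 0 ((w.drop k).take k) = lam * X (w.take k) * Y (w.drop (2 * k)) := by
    intro w hw
    obtain ⟨x, hx, z, y, hy, hzl, rfl, hc⟩ := hS w hw
    have hxl := (hAX x hx).1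
    have hyl := (hAY y hy).1
    have e1 : (x ++ z ++ y).take k = x := by
      rw [List.append_assoc, List.take_left' hxl]
    have e2 : (x ++ z ++ y).drop (2 * k) = y := by
      rw [List.drop_left' (by rw [List.length_append]; omega)]
    have e3 : ((x ++ z ++ y).drop k).take k = z := by
      rw [List.append_assoc, List.drop_left' hxl, List.take_left' hzl]
    refine ⟨by simp only [List.length_append]; omega, ?_, ?_, ?_⟩
    · rw [e1]; exact hx
    · rw [e2]; exact hy
    · rw [e1, e2, e3]; exact hc
  obtain ⟨l1, x1, y1, c1⟩ := H _ h1
  obtain ⟨l2, x2, y2, c2⟩ := H _ h2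
  obtain ⟨l3, x3, y3, c3⟩ := H _ h3
  obtain ⟨l4, x4, y4, c4⟩ := H _ h4
  have la : u.length + a.length = 3 * k := by rw [← List.length_append]; exact l1
  have dd : ∀ w : List (Let n), w.drop (2 * k) = (w.drop k).drop k := by
    intro w; rw [List.drop_drop]; congr 1; omega
  have td : ∀ w : List (Let n), (w.drop k).take k = (w.take (2 * k)).drop k := by
    intro w
    rw [List.drop_take]; congr 1; omega
  have tt : ∀ w : List (Let n), w.take k = (w.take (2 * k)).take k := by
    intro w; rw [List.take_take]; congr 1; omega
  rcases Nat.lt_or_ge k u.length with hk | hk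
  · rcases Nat.lt_or_ge u.length (2 * k) with hk2 | hk2
    · -- the middle case
      have tk : ∀ v e : List (Let n), v.length = u.length → (v ++ e).take k = v.take k := by
        intro v e hv
        rw [List.take_append_of_le_length (by omega)]
      have dk : ∀ v e : List (Let n), v.length = u.length →
          (v ++ e).drop (2 * k) = e.drop (2 * k - u.length) := by
        intro v e hv
        have n1 : v.drop (2 * k) = [] := List.drop_eq_nil_of_le (by omega)
        rw [List.drop_append, n1, List.nil_append, hv]
      have mk' : ∀ v e : List (Let n), v.length = u.length →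
          ((v ++ e).drop k).take k = v.drop k ++ e.take (2 * k - u.length) := by
        intro v e hv
        rw [List.drop_append_of_le_length (by omega), List.take_append,
          List.take_of_length_le (by rw [List.length_drop]; omega)]
        congr 2
        rw [List.length_drop]; omega
      have A1 := hApp n P c
      rw [tk u a rfl] at x1 c1
      rw [tk u b rfl] at x2 c2
      rw [tk u' a huu.symm] at x3 c3
      rw [tk u' b huu.symm] at x4 c4
      rw [dk u a rfl] at y1 c1
      rw [dk u b rfl] at y2 c2
      rw [dk u' a huu.symm] at y3 c3
      rw [dk u' b huu.symm] at y4 c4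
      rw [mk' u a rfl, A1] at c1
      rw [mk' u b rfl, A1] at c2
      rw [mk' u' a huu.symm, A1] at c3
      rw [mk' u' b huu.symm, A1] at c4
      have hl : (u'.drop k).length = (u.drop k).length := by simp [huu]
      rw [hl] at c3 c4
      have key : lam * ((X (u.take k) - X (u'.take k)) *
          (Y (a.drop (2 * k - u.length)) - Y (b.drop (2 * k - u.length)))) = 0 := by
        linear_combination c2 + c3 - c1 - c4
      have key2 := (mul_eq_zero.1 ((mul_eq_zero.1 key).resolve_left hlam))
      -- the words in the form `x ++ z ++ y`
      have form : ∀ v e : List (Let n), v.length = u.length →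
          v ++ e = v.take k ++ (v.drop k ++ e.take (2 * k - u.length)) ++
            e.drop (2 * k - u.length) := by
        intro v e _
        rw [← List.append_assoc, List.take_append_drop, List.append_assoc, List.take_append_drop]
      have zl : ∀ v e : List (Let n), v.length = u.length → e.length = a.length →
          (v.drop k ++ e.take (2 * k - u.length)).length = k := by
        intro v e hv he
        rw [List.length_append, List.length_drop, List.length_take]
        omega
      rcases key2 with hh | hh
      · -- `x1 = x3`
        left
        have hx : u.take k = u'.take k := hX x1 x3 (sub_eq_zero.1 hh)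
        have f1 := form u a rfl
        have f3 := form u' a huu.symm
        rw [f1] at h1
        rw [f3, ← hx] at h3
        have := hz _ _ _ _ (hAX _ x1).1 (zl u a rfl rfl) (zl u' a huu.symm rfl) (hAY _ y1).1 h1 h3
        have h5 : u.drop k = u'.drop k := List.append_cancel_right this
        rw [← List.take_append_drop k u, ← List.take_append_drop k u', hx, h5]
      · -- `y1 = y2`
        right
        have hy : a.drop (2 * k - u.length) = b.drop (2 * k - u.length) :=
          hY y1 y2 (sub_eq_zero.1 hh)
        have f1 := form u a rfl
        have f2 := form u b rfl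
        rw [f1] at h1
        rw [f2, ← hy] at h2
        have := hz _ _ _ _ (hAX _ x1).1 (zl u a rfl rfl) (zl u b rfl hab.symm) (hAY _ y1).1 h1 h2
        have h5 : a.take (2 * k - u.length) = b.take (2 * k - u.length) :=
          List.append_cancel_left this
        rw [← List.take_append_drop (2 * k - u.length) a,
          ← List.take_append_drop (2 * k - u.length) b, hy, h5]
    · -- `2 k ≤ |u|`
      right
      have e : (u ++ a).take (2 * k) = (u ++ b).take (2 * k) := by
        rw [List.take_append_of_le_length hk2, List.take_append_of_le_length hk2]
      rw [td, tt] at c1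
      rw [td, tt] at c2
      rw [e] at c1
      rw [c1] at c2
      have hx0 : X (((u ++ b).take (2 * k)).take k) ≠ 0 := by
        rw [← tt]; exact (hAX _ x2).2
      have hY' := mul_left_cancel₀ (mul_ne_zero hlam hx0) c2
      have hy := hY y1 y2 hY'
      have : u ++ a = u ++ b := by
        rw [← List.take_append_drop (2 * k) (u ++ a), ← List.take_append_drop (2 * k) (u ++ b), e, hy]
      exact List.append_cancel_left this
  · -- `|u| ≤ k`
    left
    have n1 : u.drop k = [] := List.drop_eq_nil_of_le hk
    have n2 : u'.drop k = [] := List.drop_eq_nil_of_le (by omega)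
    have e : (u ++ a).drop k = (u' ++ a).drop k := by
      rw [List.drop_append, List.drop_append, n1, n2, huu]
    rw [dd] at c1 c3
    rw [e] at c1
    rw [c1] at c3
    have hy0 : Y (((u' ++ a).drop k).drop k) ≠ 0 := by
      rw [← dd]; exact (hAY _ y3).2
    have hX' := mul_left_cancel₀ hlam (mul_right_cancel₀ hy0 c3)
    have hx := hX x1 x3 hX'
    have : u ++ a = u' ++ a := by
      rw [← List.take_append_drop k (u ++ a), ← List.take_append_drop k (u' ++ a), e, hx]
    exact List.append_cancel_right this

end Pool.Agent.Q232.DC.TaskNoRect
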