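import Pool.Agent.Q232.DC.Stmts

set_option autoImplicit false

namespace Pool.Agent.Q232.DC.TaskNorm

open FreeGroup Pool.Agent.Q232.DC

theorem main : Pool.Agent.Q232.DC.TaskNorm := by
  intro n x y
  constructor
  · intro hxy
    have hred : IsReduced (invRev x.toWord ++ y.toWord) := by
      have h1 : IsReduced (invRev x.toWord) := by
        rw [← toWord_inv]; exact isReduced_toWord
      have h2 : IsReduced y.toWord := isReduced_toWord
      unfold FreeGroup.IsReduced at h1 h2 ⊢
      rw [List.isChain_append]
      refine ⟨h1, h2, ?_⟩
      intro a ha b hb hab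
      unfold invRev at ha
      rw [List.getLast?_reverse, List.head?_map] at ha
      rw [Option.mem_def, Option.map_eq_some_iff] at ha
      obtain ⟨c, hc, rfl⟩ := ha
      rw [Option.mem_def] at hb
      rw [hc, hb] at hxy
      have hne : c ≠ b := fun h => hxy (by rw [h])
      have hne2 : c.2 ≠ b.2 := fun h => hne (Prod.ext hab h)
      show (!c.2) = b.2
      cases hc2 : c.2 <;> cases hb2 : b.2 <;> simp_all
    unfold FreeGroup.norm
    rw [toWord_mul, toWord_inv, hred.reduce_eq, List.length_append, invRev_length]
  · intro s hs
    obtain ⟨t, ht⟩ : ∃ t, x.toWord = s :: t := by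
      cases hx : x.toWord with
      | nil => rw [hx] at hs; simp at hs
      | cons a t =>
        rw [hx] at hs
        simp at hs
        exact ⟨t, by rw [hs]⟩
    have hr : IsReduced (s :: t) := by rw [← ht]; exact isReduced_toWord
    have hrt : IsReduced t := by
      unfold FreeGroup.IsReduced at hr ⊢
      exact hr.tail
    have hx : x = mk [s] * mk t := by
      rw [← mk_toWord (x := x), ht, mul_mk]
      rfl
    have h1 : (mk [s])⁻¹ * x = mk t := by
      rw [hx, inv_mul_cancel_left]
    rw [h1]
    unfold FreeGroup.norm
    rw [toWord_mk, hrt.reduce_eq, ht, List.length_cons]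

end Pool.Agent.Q232.DC.TaskNorm
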