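import Mathlib
import Pool.Agent.Q232.DC.Stmts

set_option autoImplicit false

namespace Pool.Agent.Q232.DC.TaskPairs

open FreeGroup

lemma split {n : ℕ} (g : FreeGroup (Fin n)) (i : ℕ) :
    g = mk (g.toWord.take i) * mk (g.toWord.drop i) := by
  rw [mul_mk, List.take_append_drop, mk_toWord]

theorem main : Pool.Agent.Q232.DC.TaskPairs := by
  intro hB hF n R i D hn hD hR hi
  obtain ⟨hfin, hcard⟩ := hB hF n (2 * (R - i)) hn
  refine le_trans ?_ hcard
  rw [← Set.ncard_coe_finset]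
  refine Set.ncard_le_ncard_of_injOn (fun p => p.1⁻¹ * p.2) ?_ ?_ hfin
  · rintro ⟨g, h⟩ hp
    simp only [Finset.coe_filter, Finset.mem_product, Set.mem_setOf_eq] at hp
    obtain ⟨⟨hg, hh⟩, hne, h1, h2, h3⟩ := hp
    show (g⁻¹ * h).norm ≤ 2 * (R - i)
    have e : g⁻¹ * h = (mk (g.toWord.drop i))⁻¹ * mk (h.toWord.drop i) := by
      rw [show g⁻¹ * h = (mk (g.toWord.take i) * mk (g.toWord.drop i))⁻¹ *
        (mk (h.toWord.take i) * mk (h.toWord.drop i)) by rw [← split g i, ← split h i], h3]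
      group
    rw [e]
    have g1 : (mk (g.toWord.drop i)).norm ≤ R - i := by
      refine norm_mk_le.trans ?_
      rw [List.length_drop]
      exact Nat.sub_le_sub_right (hR g hg) i
    have g2 : (mk (h.toWord.drop i)).norm ≤ R - i := by
      refine norm_mk_le.trans ?_
      rw [List.length_drop]
      exact Nat.sub_le_sub_right (hR h hh) i
    have g3 := norm_mul_le (mk (g.toWord.drop i))⁻¹ (mk (h.toWord.drop i))
    rw [norm_inv_eq] at g3
    omega
  · rintro ⟨g, h⟩ hp ⟨g', h'⟩ hp' heq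
    simp only [Finset.coe_filter, Finset.mem_product, Set.mem_setOf_eq] at hp hp'
    obtain ⟨a, b⟩ := hD g hp.1.1 h hp.1.2 g' hp'.1.1 h' hp'.1.2 hp.2.1 hp'.2.1 heq
    rw [a, b]

end Pool.Agent.Q232.DC.TaskPairs
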