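import Pool.Agent.Q232.DC.Stmts

set_option autoImplicit false

namespace Pool.Agent.Q232.DC.TaskRect

open FreeGroup Pool.Agent.Q232.DC

theorem main : Pool.Agent.Q232.DC.TaskRect := by
  intro hDiff hSplit n r S hS hN
  classical
  have hword : ∀ w ∈ S, (FreeGroup.mk w).toWord = w := by
    intro w hw
    rw [FreeGroup.toWord_mk]
    exact (hS w hw).2.reduce_eq
  have hinj : Set.InjOn (FreeGroup.mk : List (Let n) → FreeGroup (Fin n)) (S : Set (List (Let n))) := by
    intro w hw v hv h
    have := congrArg FreeGroup.toWord h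
    rwa [hword w hw, hword v hv] at this
  refine ⟨S.image FreeGroup.mk, Finset.card_image_of_injOn hinj, ?_, ?_⟩
  · intro g hg h hh g' hg' h' hh' hne hne' heq
    rw [Finset.mem_image] at hg hh hg' hh'
    obtain ⟨w, hw, rfl⟩ := hg
    obtain ⟨v, hv, rfl⟩ := hh
    obtain ⟨w', hw', rfl⟩ := hg'
    obtain ⟨v', hv', rfl⟩ := hh'
    have h1 : w ≠ v := fun e => hne (by rw [e])
    have h1' : w' ≠ v' := fun e => hne' (by rw [e])
    obtain ⟨u, a, b, e1, e2, e3, e4, e5⟩ := hSplit n w v (by rw [(hS w hw).1, (hS v hv).1]) h1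
    obtain ⟨u', a', b', e1', e2', e3', e4', e5'⟩ :=
      hSplit n w' v' (by rw [(hS w' hw').1, (hS v' hv').1]) h1'
    have d1 := hDiff n u a b (by rw [← e1]; exact (hS w hw).2) (by rw [← e2]; exact (hS v hv).2) e3
      (Or.inr e5)
    have d2 := hDiff n u' a' b' (by rw [← e1']; exact (hS w' hw').2)
      (by rw [← e2']; exact (hS v' hv').2) e3' (Or.inr e5')
    rw [← e1, ← e2] at d1
    rw [← e1', ← e2'] at d2
    have d3 : invRev a ++ b = invRev a' ++ b' := by rw [← d1, ← d2, heq]
    have l1 : (invRev a ++ b).length = (invRev a' ++ b').length := by rw [d3]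
    rw [List.length_append, List.length_append, invRev_length, invRev_length] at l1
    have l2 : a.length = a'.length := by omega
    have d4 := List.append_inj d3 (by rw [invRev_length, invRev_length, l2])
    have ea : a = a' := invRev_injective d4.1
    have eb : b = b' := d4.2
    subst ea
    subst eb
    have lu : u.length = u'.length := by
      have x1 := (hS w hw).1
      have x2 := (hS w' hw').1
      rw [e1, List.length_append] at x1
      rw [e1', List.length_append] at x2
      omega
    have hr := hN u u' a b lu e3 (by rw [← e1]; exact hw) (by rw [← e2]; exact hv)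
      (by rw [← e1']; exact hw') (by rw [← e2']; exact hv')
    rcases hr with hr | hr
    · subst hr
      rw [e1, e2, e1', e2']
      exact ⟨rfl, rfl⟩
    · exact absurd (by rw [hr]) e5
  · intro g hg h hh
    rw [Finset.mem_image] at hg hh
    obtain ⟨w, hw, rfl⟩ := hg
    obtain ⟨v, hv, rfl⟩ := hh
    refine (FreeGroup.norm_mul_le _ _).trans ?_
    rw [FreeGroup.norm_inv_eq]
    have x1 : (FreeGroup.mk w).norm ≤ w.length := FreeGroup.norm_mk_le
    have x2 : (FreeGroup.mk v).norm ≤ v.length := FreeGroup.norm_mk_le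
    rw [(hS w hw).1] at x1
    rw [(hS v hv).1] at x2
    omega

end Pool.Agent.Q232.DC.TaskRect
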