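import Pool.Agent.Q232.DC.Stmts

set_option autoImplicit false

namespace Pool.Agent.Q232.DC.TaskSplit

open FreeGroup

theorem main : Pool.Agent.Q232.DC.TaskSplit := by
  intro n g
  induction g with
  | nil =>
    intro h hl hne
    exact absurd (List.length_eq_zero_iff.1 hl.symm).symm hne
  | cons x g ih =>
    intro h hl hne
    cases h with
    | nil => simp at hl
    | cons y h =>
      by_cases hxy : x = y
      · subst hxy
        obtain ⟨u, a, b, h1, h2, h3, h4, h5⟩ := ih h (by simpa using hl) (by
          intro hgh
          exact hne (by rw [hgh]))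
        exact ⟨x :: u, a, b, by rw [h1]; rfl, by rw [h2]; rfl, h3, h4, h5⟩
      · refine ⟨[], x :: g, y :: h, rfl, rfl, hl, by simp, ?_⟩
        simp only [List.head?_cons]
        intro hh
        exact hxy (Option.some.inj hh)

end Pool.Agent.Q232.DC.TaskSplit
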