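import Pool.Agent.Q232.DC.Stmts

/-! `DDC.TaskTransl` (helper230). -/

set_option autoImplicit false

namespace Pool.Agent.Q232.DC.TaskTransl

theorem main : Pool.Agent.Q232.DC.TaskTransl := by
  classical
  intro n D c hD
  refine ⟨D.image (fun g => c⁻¹ * g), ?_, ?_, ?_⟩
  · exact Finset.card_image_of_injective _ (mul_right_injective c⁻¹)
  · intro g hg h hh g' hg' h' hh' h1 h2 h3
    obtain ⟨a, ha, rfl⟩ := Finset.mem_image.1 hg
    obtain ⟨b, hb, rfl⟩ := Finset.mem_image.1 hh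
    obtain ⟨a', ha', rfl⟩ := Finset.mem_image.1 hg'
    obtain ⟨b', hb', rfl⟩ := Finset.mem_image.1 hh'
    have e : ∀ x y : FreeGroup (Fin n), (c⁻¹ * x)⁻¹ * (c⁻¹ * y) = x⁻¹ * y := by
      intro x y
      group
    rw [e, e] at h3
    obtain ⟨r1, r2⟩ := hD a ha b hb a' ha' b' hb' (fun hab => h1 (by rw [hab]))
      (fun hab => h2 (by rw [hab])) h3
    exact ⟨by rw [r1], by rw [r2]⟩
  · intro g' hg'
    obtain ⟨a, ha, rfl⟩ := Finset.mem_image.1 hg'
    exact ⟨a, ha, rfl⟩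

end Pool.Agent.Q232.DC.TaskTransl
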