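import Pool.Agent.Q232.DC.Stmts

set_option autoImplicit false

namespace Pool.Agent.Q232.DC.UpFix

open FreeGroup Pool.Agent.Q232.DC

theorem red_take {n : ℕ} (i : ℕ) {w : List (Let n)} (h : IsReduced w) : IsReduced (w.take i) := by
  have h2 : IsReduced (w.take i ++ w.drop i) := by rwa [List.take_append_drop]
  unfold FreeGroup.IsReduced at h2 ⊢
  exact (List.isChain_append.1 h2).1

theorem card_le_ball (hB : TaskBall) (hF : TaskFirst) {n m : ℕ} (hn : 2 ≤ n)
    (S : Finset (FreeGroup (Fin n))) (hS : ∀ g ∈ S, g.norm ≤ m) :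
    S.card ≤ 2 * (2 * n - 1) ^ m := by
  obtain ⟨h1, h2⟩ := hB hF n m hn
  have h3 : (S : Set (FreeGroup (Fin n))) ⊆ {g : FreeGroup (Fin n) | g.norm ≤ m} :=
    fun g hg => hS g hg
  have h4 := Set.ncard_le_ncard h3 h1
  rw [Set.ncard_coe_finset] at h4
  exact h4.trans h2

theorem card_image_le (hB : TaskBall) (hF : TaskFirst) {n i : ℕ} (hn : 2 ≤ n)
    (A : Finset (FreeGroup (Fin n))) :
    (A.image fun g => g.toWord.take i).card ≤ 2 * (2 * n - 1) ^ i := by
  have hred : ∀ w ∈ A.image (fun g : FreeGroup (Fin n) => g.toWord.take i),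
      (mk w).toWord = w ∧ w.length ≤ i := by
    intro w hw
    obtain ⟨g, -, rfl⟩ := Finset.mem_image.1 hw
    constructor
    · rw [toWord_mk]
      exact (red_take i isReduced_toWord).reduce_eq
    · rw [List.length_take]
      exact min_le_left _ _
  have hinj : Set.InjOn (mk : List (Let n) → FreeGroup (Fin n))
      (A.image fun g : FreeGroup (Fin n) => g.toWord.take i : Finset (List (Let n))) := by
    intro w hw w' hw' h
    rw [← (hred w hw).1, ← (hred w' hw').1, h]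
  rw [← Finset.card_image_of_injOn hinj]
  refine card_le_ball hB hF hn _ fun g hg => ?_
  obtain ⟨w, hw, rfl⟩ := Finset.mem_image.1 hg
  unfold FreeGroup.norm
  rw [(hred w hw).1]
  exact (hred w hw).2

theorem real_part (a Q q : ℝ) (hQ : 0 < Q) (hq : 0 < q)
    (h : a ^ 2 ≤ 2 * Q * a + 4 * Q ^ 2 * q) : a ≤ (2 + 2 * q) * Q := by
  by_contra hcon
  push Not at hcon
  have h1 : 0 < Q * q := by positivity
  have h2 : (2 + 2 * q) * Q * ((2 + 2 * q) * Q) ≤ a * ((2 + 2 * q) * Q) :=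
    mul_le_mul_of_nonneg_right hcon.le (by positivity)
  nlinarith [mul_pos hQ hQ, mul_pos (mul_pos hQ hQ) hq]

theorem main : Pool.Agent.Q232.DC.TaskUp := by
  intro hB hF hP hCS n R D hn hD hR
  set i : ℕ := 2 * R / 3 with hi
  have hiR : i ≤ R := by omega
  set q : ℕ := 2 * n - 1 with hq
  have hq3 : 3 ≤ q := by omega
  set A := D.filter fun g => i ≤ g.norm with hA
  set f : FreeGroup (Fin n) → List (Let n) := fun g => g.toWord.take i with hf
  have h1 : (A.image f).card ≤ 2 * q ^ i := card_image_le hB hF hn A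
  have h2 := hCS (FreeGroup (Fin n)) (List (Let n)) A f (2 * q ^ i) h1
  have h3 := hP hB hF n R i D hn hD hR hiR
  have h4 : ((A ×ˢ A).filter (fun p => p.1 ≠ p.2 ∧ f p.1 = f p.2)).card ≤
      2 * q ^ (2 * (R - i)) := by
    refine le_trans (Finset.card_le_card ?_) h3
    intro p hp
    rw [Finset.mem_filter, Finset.mem_product, hA, Finset.mem_filter, Finset.mem_filter] at hp
    rw [Finset.mem_filter, Finset.mem_product]
    exact ⟨⟨hp.1.1.1, hp.1.2.1⟩, hp.2.1, hp.1.1.2, hp.1.2.2, hp.2.2⟩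
  have h5 : (D.filter fun g => ¬ i ≤ g.norm).card ≤ 2 * q ^ i := by
    refine card_le_ball hB hF hn _ fun g hg => ?_
    have := (Finset.mem_filter.1 hg).2
    omega
  have h6 : A.card + (D.filter fun g => ¬ i ≤ g.norm).card = D.card :=
    Finset.card_filter_add_card_filter_not _
  -- real numbers
  set Q : ℝ := (q : ℝ) ^ (2 * (R : ℝ) / 3) with hQ
  have hq0 : (0 : ℝ) < q := by
    have : (3 : ℝ) ≤ q := by exact_mod_cast hq3
    linarith
  have hq1 : (1 : ℝ) ≤ q := by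
    have : (3 : ℝ) ≤ q := by exact_mod_cast hq3
    linarith
  have hQ0 : 0 < Q := Real.rpow_pos_of_pos hq0 _
  have hi1 : (i : ℝ) ≤ 2 * (R : ℝ) / 3 := by
    have : 3 * i ≤ 2 * R := by omega
    have h : (3 : ℝ) * i ≤ 2 * R := by exact_mod_cast this
    linarith
  have hi2 : 2 * (R : ℝ) ≤ 3 * i + 2 := by
    have : 2 * R ≤ 3 * i + 2 := by omega
    exact_mod_cast this
  have hqi : (q : ℝ) ^ i ≤ Q := by
    rw [hQ, ← Real.rpow_natCast]
    exact Real.rpow_le_rpow_of_exponent_le hq1 hi1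
  have hprod : (q : ℝ) ^ i * (q : ℝ) ^ (2 * (R - i)) ≤ Q ^ 2 * q := by
    have e1 : (q : ℝ) ^ i * (q : ℝ) ^ (2 * (R - i)) = (q : ℝ) ^ (2 * (R : ℝ) - i) := by
      rw [← pow_add, ← Real.rpow_natCast]
      congr 1
      push_cast [Nat.cast_sub hiR]
      ring
    have e2 : Q ^ 2 * q = (q : ℝ) ^ (2 * (R : ℝ) / 3 + 2 * (R : ℝ) / 3 + 1) := by
      rw [Real.rpow_add hq0, Real.rpow_add hq0, Real.rpow_one, ← hQ]
      ring
    rw [e1, e2]
    apply Real.rpow_le_rpow_of_exponent_le hq1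
    linarith
  have h7 : ((A.card : ℝ)) ^ 2 ≤ 2 * Q * A.card + 4 * Q ^ 2 * q := by
    have h8 : A.card ^ 2 ≤ 2 * q ^ i * (A.card + 2 * q ^ (2 * (R - i))) :=
      h2.trans (Nat.mul_le_mul_left _ (Nat.add_le_add_left h4 _))
    have h9 : ((A.card : ℝ)) ^ 2 ≤ 2 * (q : ℝ) ^ i * (A.card + 2 * (q : ℝ) ^ (2 * (R - i))) := by
      exact_mod_cast h8
    have hA0 : (0 : ℝ) ≤ A.card := Nat.cast_nonneg _
    nlinarith [mul_le_mul_of_nonneg_right hqi hA0]
  have h10 := real_part _ _ _ hQ0 hq0 h7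
  have h11 : ((D.filter fun g => ¬ i ≤ g.norm).card : ℝ) ≤ 2 * Q := by
    have : ((D.filter fun g => ¬ i ≤ g.norm).card : ℝ) ≤ 2 * (q : ℝ) ^ i := by exact_mod_cast h5
    linarith
  have h12 : (D.card : ℝ) = A.card + (D.filter fun g => ¬ i ≤ g.norm).card := by
    exact_mod_cast h6.symm
  have hqn : (q : ℝ) = 2 * n - 1 := by
    have : q + 1 = 2 * n := by omega
    have h : (q : ℝ) + 1 = 2 * n := by exact_mod_cast this
    linarith
  rw [h12]
  have hn' : (2 : ℝ) ≤ n := by exact_mod_cast hn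
  have h13 : (2 + 2 * (q : ℝ)) * Q + 2 * Q ≤ 10 * n * Q := by
    rw [hqn]
    nlinarith
  linarith

end Pool.Agent.Q232.DC.UpFix
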